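import Pool.Agent.W645.WV.Stm

/-!
# WV-KER: the kernel from `L^p(ds)` to `L^p(dt)`
-/

set_option autoImplicit false

open MeasureTheory Set Complex
open scoped ENNReal

namespace Pool.Agent.W216.WV

open Pool.Agent.W645.WV

/-- the weight -/
noncomputable def ww (L s : ℝ) : ℝ := Real.sqrt (1 + (s / L) ^ 2)

/-- the factor -/
noncomputable def uu (L s : ℝ) : ℂ := 1 + I * ((s / L : ℝ) : ℂ)

theorem ww_pos (L s : ℝ) : 0 < ww L s := Real.sqrt_pos.2 (by positivity)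

theorem norm_uu (L s : ℝ) : ‖uu L s‖ = ww L s := by
  unfold uu ww
  rw [Complex.norm_def, Complex.normSq_apply]
  congr 1
  simp
  ring

theorem uu_ne (L s : ℝ) : uu L s ≠ 0 := by
  rw [← norm_pos_iff, norm_uu]
  exact ww_pos L s

theorem uu_meas (L : ℝ) : Measurable (uu L) := by
  unfold uu
  have : Continuous (fun s : ℝ => 1 + I * ((s / L : ℝ) : ℂ)) :=
    continuous_const.add (continuous_const.mul (Complex.continuous_ofReal.comp (by fun_prop)))
  exact this.measurable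

theorem ww_meas (L : ℝ) : Measurable (ww L) := by
  have : Continuous (ww L) := by unfold ww; fun_prop
  exact this.measurable

section kernel

variable (M : ℝ → ℝ → ℂ) (L A B : ℝ)

/-- the operator -/
noncomputable def KO (g : ℝ → ℂ) (t : ℝ) : ℂ := ∫ s : ℝ, M t s * (uu L s * g s)

variable (hM : Measurable (fun q : ℝ × ℝ => M q.1 q.2))
  (hA : ∀ t ∈ Icc (1 : ℝ) 2, ∫⁻ s : ℝ, ENNReal.ofReal (ww L s) * ‖M t s‖ₑ ≤ ENNReal.ofReal A)
  (hB : ∀ g : ℝ → ℂ, Measurable g → (∃ K : ℝ, ∀ s, ‖g s‖ ≤ K) →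
    (∃ R : ℝ, ∀ s, R < |s| → g s = 0) →
    ∫⁻ t in Icc (1 : ℝ) 2, ‖KO M L g t‖ₑ ^ (2 : ℝ) ≤
      ENNReal.ofReal B * ∫⁻ s, ‖g s‖ₑ ^ (2 : ℝ))

include hM in
theorem KO_meas (g : ℝ → ℂ) (hg : Measurable g) : Measurable (KO M L g) := by
  have h1 : Measurable (fun q : ℝ × ℝ => M q.1 q.2 * (uu L q.2 * g q.2)) :=
    hM.mul (((uu_meas L).comp measurable_snd).mul (hg.comp measurable_snd))
  exact (StronglyMeasurable.integral_prod_right' (ν := (volume : Measure ℝ))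
    h1.stronglyMeasurable).measurable

include hM hA in
theorem KO_int (g : ℝ → ℂ) (hg : Measurable g) (G : ℝ) (hG : ∀ s, ‖g s‖ ≤ G)
    (t : ℝ) (ht : t ∈ Icc (1 : ℝ) 2) : Integrable (fun s => M t s * (uu L s * g s)) := by
  refine ⟨(((hM.comp measurable_prodMk_left).mul ((uu_meas L).mul hg))).aestronglyMeasurable, ?_⟩
  unfold HasFiniteIntegral
  have hG0 : 0 ≤ G := (norm_nonneg _).trans (hG 0)
  calc ∫⁻ s, ‖M t s * (uu L s * g s)‖ₑ
      ≤ ∫⁻ s, ENNReal.ofReal G * (ENNReal.ofReal (ww L s) * ‖M t s‖ₑ) := by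
        refine lintegral_mono fun s => ?_
        rw [enorm_mul, enorm_mul, ← ofReal_norm (uu L s), norm_uu, ← ofReal_norm (g s)]
        calc ‖M t s‖ₑ * (ENNReal.ofReal (ww L s) * ENNReal.ofReal ‖g s‖)
            ≤ ‖M t s‖ₑ * (ENNReal.ofReal (ww L s) * ENNReal.ofReal G) := by
              gcongr
              exact hG s
          _ = _ := by ring
    _ = ENNReal.ofReal G * ∫⁻ s, ENNReal.ofReal (ww L s) * ‖M t s‖ₑ := by
        rw [lintegral_const_mul' _ _ ENNReal.ofReal_ne_top]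
    _ ≤ ENNReal.ofReal G * ENNReal.ofReal A := by gcongr; exact hA t ht
    _ < ⊤ := ENNReal.mul_lt_top ENNReal.ofReal_lt_top ENNReal.ofReal_lt_top

include hM hA in
theorem KO_bd (hA0 : 0 ≤ A) (g : ℝ → ℂ) (G : ℝ) (hG : ∀ s, ‖g s‖ ≤ G)
    (t : ℝ) (ht : t ∈ Icc (1 : ℝ) 2) : ‖KO M L g t‖ ≤ G * A := by
  have hG0 : 0 ≤ G := (norm_nonneg _).trans (hG 0)
  have h1 : ‖KO M L g t‖ₑ ≤ ENNReal.ofReal (G * A) := by
    unfold KO
    refine (enorm_integral_le_lintegral_enorm _).trans ?_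
    calc ∫⁻ s, ‖M t s * (uu L s * g s)‖ₑ
        ≤ ∫⁻ s, ENNReal.ofReal G * (ENNReal.ofReal (ww L s) * ‖M t s‖ₑ) := by
          refine lintegral_mono fun s => ?_
          rw [enorm_mul, enorm_mul, ← ofReal_norm (uu L s), norm_uu, ← ofReal_norm (g s)]
          calc ‖M t s‖ₑ * (ENNReal.ofReal (ww L s) * ENNReal.ofReal ‖g s‖)
              ≤ ‖M t s‖ₑ * (ENNReal.ofReal (ww L s) * ENNReal.ofReal G) := by
                gcongr
                exact hG s
            _ = _ := by ring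
      _ = ENNReal.ofReal G * ∫⁻ s, ENNReal.ofReal (ww L s) * ‖M t s‖ₑ := by
          rw [lintegral_const_mul' _ _ ENNReal.ofReal_ne_top]
      _ ≤ ENNReal.ofReal G * ENNReal.ofReal A := by gcongr; exact hA t ht
      _ = ENNReal.ofReal (G * A) := by rw [ENNReal.ofReal_mul hG0]
  rw [← ofReal_norm] at h1
  exact (ENNReal.ofReal_le_ofReal_iff (mul_nonneg hG0 hA0)).1 h1

include hM hA hB in
/-- the case `p = 2` -/
theorem ker_two (g : ℝ → ℂ) (hg : Measurable g) (G : ℝ) (hG : ∀ s, ‖g s‖ ≤ G) :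
    ∫⁻ t in Icc (1 : ℝ) 2, ‖KO M L g t‖ₑ ^ (2 : ℝ) ≤
      ENNReal.ofReal B * ∫⁻ s, ‖g s‖ₑ ^ (2 : ℝ) := by
  have hG0 : 0 ≤ G := (norm_nonneg _).trans (hG 0)
  let gn : ℕ → ℝ → ℂ := fun n => (Icc (-(n : ℝ)) n).indicator g
  have hgn : ∀ n, Measurable (gn n) := fun n => hg.indicator measurableSet_Icc
  have hgnle : ∀ n s, ‖gn n s‖ ≤ ‖g s‖ := by
    intro n s
    by_cases h : s ∈ Icc (-(n : ℝ)) n
    · simp only [gn, indicator_of_mem h]; exact le_rfl
    · simp only [gn, indicator_of_notMem h, norm_zero]; exact norm_nonneg _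
  have hgnG : ∀ n s, ‖gn n s‖ ≤ G := fun n s => (hgnle n s).trans (hG s)
  have hlim : ∀ t ∈ Icc (1 : ℝ) 2, Filter.Tendsto (fun n => KO M L (gn n) t) Filter.atTop
      (nhds (KO M L g t)) := by
    intro t ht
    unfold KO
    refine tendsto_integral_of_dominated_convergence (fun s => ‖M t s * (uu L s * g s)‖) ?_
      (KO_int M L A hM hA g hg G hG t ht).norm ?_ ?_
    · intro n
      exact (KO_int M L A hM hA (gn n) (hgn n) G (hgnG n) t ht).aestronglyMeasurable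
    · intro n
      refine Filter.Eventually.of_forall fun s => ?_
      rw [norm_mul, norm_mul, norm_mul, norm_mul]
      have := hgnle n s
      gcongr
    · refine Filter.Eventually.of_forall fun s => ?_
      refine Filter.Tendsto.congr' (f₁ := fun _ => M t s * (uu L s * g s)) ?_ tendsto_const_nhds
      filter_upwards [Filter.eventually_ge_atTop ⌈|s|⌉₊] with n hn
      have h1 : |s| ≤ n := (Nat.le_ceil _).trans (by exact_mod_cast hn)
      have h2 : s ∈ Icc (-(n : ℝ)) n := abs_le.1 h1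
      simp only [gn, indicator_of_mem h2]
  calc ∫⁻ t in Icc (1 : ℝ) 2, ‖KO M L g t‖ₑ ^ (2 : ℝ)
      = ∫⁻ t in Icc (1 : ℝ) 2, Filter.liminf (fun n => ‖KO M L (gn n) t‖ₑ ^ (2 : ℝ))
          Filter.atTop := by
        refine setLIntegral_congr_fun measurableSet_Icc fun t ht => ?_
        have h1 : Filter.Tendsto (fun n => ‖KO M L (gn n) t‖ₑ ^ (2 : ℝ)) Filter.atTop
            (nhds (‖KO M L g t‖ₑ ^ (2 : ℝ))) :=
          ((ENNReal.continuous_rpow_const).tendsto _).comp ((hlim t ht).enorm)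
        exact h1.liminf_eq.symm
    _ ≤ Filter.liminf (fun n => ∫⁻ t in Icc (1 : ℝ) 2, ‖KO M L (gn n) t‖ₑ ^ (2 : ℝ))
          Filter.atTop :=
        lintegral_liminf_le fun n => ((KO_meas M L hM (gn n) (hgn n)).enorm.pow_const _)
    _ ≤ ENNReal.ofReal B * ∫⁻ s, ‖g s‖ₑ ^ (2 : ℝ) := by
        refine Filter.liminf_le_of_frequently_le' (Filter.Frequently.of_forall fun n => ?_)
        refine (hB (gn n) (hgn n) ⟨G, hgnG n⟩ ⟨n, fun s hs => ?_⟩).trans ?_
        · have h2 : s ∉ Icc (-(n : ℝ)) n := by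
            intro h
            exact absurd (abs_le.2 h) (not_le.2 hs)
          simp only [gn, indicator_of_notMem h2]
        · refine mul_le_mul_right (lintegral_mono fun s => ?_) _
          have h3 : ‖gn n s‖ₑ ≤ ‖g s‖ₑ := by
            rw [← ofReal_norm, ← ofReal_norm]
            exact ENNReal.ofReal_le_ofReal (hgnle n s)
          exact ENNReal.rpow_le_rpow h3 (by norm_num)

include hM hA hB in
/-- the weak type inequality -/
theorem weak (hA0 : 0 < A) (hL : 0 < L) (g : ℝ → ℂ) (hg : Measurable g) (K : ℝ)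
    (hK : ∀ s, ‖g s‖ * ww L s ≤ K) (τ : ℝ) (hτ : 0 < τ) :
    (volume.restrict (Icc (1 : ℝ) 2)) {t | τ < ‖KO M L g t‖} ≤
      ENNReal.ofReal (4 * B * τ ^ (-2 : ℝ)) *
        ∫⁻ s in {s | τ < 2 * A * ‖g s‖}, ‖g s‖ₑ ^ (2 : ℝ) := by
  classical
  have hK' : ∀ s, ‖g s‖ ≤ K := by
    intro s
    refine le_trans ?_ (hK s)
    have h1 : 1 ≤ ww L s := by
      unfold ww
      rw [Real.one_le_sqrt]
      nlinarith [sq_nonneg (s / L)]
    exact le_mul_of_one_le_right (norm_nonneg _) h1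
  set S : Set ℝ := {s | τ < 2 * A * ‖g s‖} with hS
  have hSm : MeasurableSet S := measurableSet_lt measurable_const (hg.norm.const_mul _)
  let g1 : ℝ → ℂ := S.indicator g
  let g2 : ℝ → ℂ := Sᶜ.indicator g
  have hg1 : Measurable g1 := hg.indicator hSm
  have hg2 : Measurable g2 := hg.indicator hSm.compl
  have hg1le : ∀ s, ‖g1 s‖ ≤ ‖g s‖ := by
    intro s
    by_cases h : s ∈ S
    · simp only [g1, indicator_of_mem h]; exact le_rfl
    · simp only [g1, indicator_of_notMem h, norm_zero]; exact norm_nonneg _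
  have hg2le : ∀ s, ‖g2 s‖ ≤ τ / (2 * A) := by
    intro s
    by_cases h : s ∈ Sᶜ
    · simp only [g2, indicator_of_mem h]
      rw [le_div_iff₀ (by positivity)]
      have : ¬ τ < 2 * A * ‖g s‖ := h
      linarith
    · simp only [g2, indicator_of_notMem h, norm_zero]; positivity
  have hsum : ∀ t ∈ Icc (1 : ℝ) 2, KO M L g t = KO M L g1 t + KO M L g2 t := by
    intro t ht
    unfold KO
    rw [← integral_add (KO_int M L A hM hA g1 hg1 K (fun s => (hg1le s).trans (hK' s)) t ht)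
      (KO_int M L A hM hA g2 hg2 _ hg2le t ht)]
    refine integral_congr_ae (Filter.Eventually.of_forall fun s => ?_)
    have : g s = g1 s + g2 s := by
      have := congrFun (indicator_self_add_compl S g) s
      exact this.symm
    simp only
    rw [this]
    ring
  have h2 : ∀ t ∈ Icc (1 : ℝ) 2, ‖KO M L g2 t‖ ≤ τ / 2 := by
    intro t ht
    refine (KO_bd M L A hM hA hA0.le g2 _ hg2le t ht).trans (le_of_eq ?_)
    field_simp
  have hK0 : 0 ≤ K := (norm_nonneg _).trans (hK' 0)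
  have hsupp : ∀ s, 2 * A * K * L / τ < |s| → g1 s = 0 := by
    intro s hs
    by_contra h
    have hs' : s ∈ S := by
      by_contra h'
      exact h (by simp only [g1, indicator_of_notMem h'])
    have h3 : τ < 2 * A * ‖g s‖ := hs'
    have h4 : |s| / L ≤ ww L s := by
      unfold ww
      apply Real.le_sqrt_of_sq_le
      rw [div_pow, sq_abs, ← div_pow]
      linarith
    have h5 : ‖g s‖ * (|s| / L) ≤ K :=
      (mul_le_mul_of_nonneg_left h4 (norm_nonneg _)).trans (hK s)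
    rw [div_lt_iff₀ hτ] at hs
    have h6 : ‖g s‖ * |s| ≤ K * L := by
      rw [← mul_div_assoc, div_le_iff₀ hL] at h5
      exact h5
    have h7 : 0 < |s| := by
      by_contra h0
      have : |s| * τ ≤ 0 := mul_nonpos_of_nonpos_of_nonneg (not_lt.1 h0) hτ.le
      have : 0 ≤ 2 * A * K * L := by positivity
      linarith
    have h8 : τ * |s| < 2 * A * ‖g s‖ * |s| := mul_lt_mul_of_pos_right h3 h7
    have h9 : 2 * A * (‖g s‖ * |s|) ≤ 2 * A * (K * L) :=
      mul_le_mul_of_nonneg_left h6 (by positivity)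
    nlinarith
  have h3 : (volume.restrict (Icc (1 : ℝ) 2)) {t | τ < ‖KO M L g t‖} ≤
      (volume.restrict (Icc (1 : ℝ) 2)) {t | ENNReal.ofReal ((τ / 2) ^ (2 : ℝ)) ≤
        ‖KO M L g1 t‖ₑ ^ (2 : ℝ)} := by
    rw [Measure.restrict_apply' measurableSet_Icc, Measure.restrict_apply' measurableSet_Icc]
    refine measure_mono ?_
    rintro t ⟨ht1, ht2⟩
    refine ⟨?_, ht2⟩
    have h4 : τ < ‖KO M L g t‖ := ht1
    rw [hsum t ht2] at h4
    have h5 := norm_add_le (KO M L g1 t) (KO M L g2 t)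
    have h6 := h2 t ht2
    have h7 : τ / 2 ≤ ‖KO M L g1 t‖ := by linarith
    show ENNReal.ofReal ((τ / 2) ^ (2 : ℝ)) ≤ ‖KO M L g1 t‖ₑ ^ (2 : ℝ)
    rw [← ofReal_norm, ENNReal.ofReal_rpow_of_nonneg (norm_nonneg _) (by norm_num)]
    exact ENNReal.ofReal_le_ofReal (Real.rpow_le_rpow (by positivity) h7 (by norm_num))
  have h4 := mul_meas_ge_le_lintegral₀ (μ := volume.restrict (Icc (1 : ℝ) 2))
    ((KO_meas M L hM g1 hg1).enorm.pow_const (2 : ℝ)).aemeasurable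
    (ENNReal.ofReal ((τ / 2) ^ (2 : ℝ)))
  have h5 := hB g1 hg1 ⟨K, fun s => (hg1le s).trans (hK' s)⟩ ⟨_, hsupp⟩
  have h6 : ∫⁻ s, ‖g1 s‖ₑ ^ (2 : ℝ) = ∫⁻ s in S, ‖g s‖ₑ ^ (2 : ℝ) := by
    rw [← lintegral_indicator hSm]
    refine lintegral_congr fun s => ?_
    by_cases h : s ∈ S
    · simp only [g1, indicator_of_mem h]
    · simp only [g1, indicator_of_notMem h, enorm_zero]
      rw [ENNReal.zero_rpow_of_pos (by norm_num)]
  rw [h6] at h5
  have hc0 : 0 < (τ / 2) ^ (2 : ℝ) := Real.rpow_pos_of_pos (by positivity) _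
  have hc : ENNReal.ofReal ((τ / 2) ^ (2 : ℝ)) ≠ 0 := by
    rw [Ne, ENNReal.ofReal_eq_zero, not_le]
    exact hc0
  refine h3.trans ?_
  rw [← ENNReal.mul_le_mul_iff_right hc ENNReal.ofReal_ne_top]
  refine (h4.trans h5).trans (le_of_eq ?_)
  rw [← mul_assoc, ← ENNReal.ofReal_mul hc0.le]
  congr 2
  rw [Real.div_rpow hτ.le (by norm_num), Real.rpow_neg hτ.le]
  have e1 : τ ^ (2 : ℝ) ≠ 0 := (Real.rpow_pos_of_pos hτ _).ne'
  have e2 : (2 : ℝ) ^ (2 : ℝ) = 4 := by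
    rw [Real.rpow_two]; norm_num
  rw [e2]
  field_simp

include hM hA hB in
/-- the case `2 < p` -/
theorem ker_gt (hA0 : 0 < A) (hB0 : 0 ≤ B) (hL : 0 < L) (g : ℝ → ℂ) (hg : Measurable g) (K : ℝ)
    (hK : ∀ s, ‖g s‖ * ww L s ≤ K) (p : ℝ) (hp : 2 < p) :
    ∫⁻ t in Icc (1 : ℝ) 2, ‖KO M L g t‖ₑ ^ p ≤
      ENNReal.ofReal (4 * p / (p - 2) * (2 * A) ^ (p - 2) * B) * ∫⁻ s, ‖g s‖ₑ ^ p := by
  have hp0 : 0 < p := by linarith
  have hp2 : 0 < p - 2 := by linarith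
  set ν : Measure ℝ := volume.withDensity (fun s => ‖g s‖ₑ ^ (2 : ℝ)) with hν
  have hgm : Measurable (fun s => ‖g s‖ₑ ^ (2 : ℝ)) := hg.enorm.pow_const _
  have hf : Measurable (fun t => ‖KO M L g t‖) := (KO_meas M L hM g hg).norm
  have hf2 : Measurable (fun s => 2 * A * ‖g s‖) := hg.norm.const_mul _
  have h1 := lintegral_rpow_eq_lintegral_meas_lt_mul (volume.restrict (Icc (1 : ℝ) 2))
    (f := fun t => ‖KO M L g t‖) (Filter.Eventually.of_forall fun t => norm_nonneg _)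
    hf.aemeasurable hp0
  have h2 := lintegral_rpow_eq_lintegral_meas_lt_mul ν
    (f := fun s => 2 * A * ‖g s‖) (Filter.Eventually.of_forall fun t => by positivity)
    hf2.aemeasurable hp2
  have e1 : ∫⁻ t in Icc (1 : ℝ) 2, ‖KO M L g t‖ₑ ^ p =
      ∫⁻ t in Icc (1 : ℝ) 2, ENNReal.ofReal (‖KO M L g t‖ ^ p) := by
    refine lintegral_congr fun t => ?_
    rw [← ofReal_norm, ENNReal.ofReal_rpow_of_nonneg (norm_nonneg _) hp0.le]
  rw [e1, h1]
  have h3 : ∫⁻ τ in Ioi (0 : ℝ), (volume.restrict (Icc (1 : ℝ) 2)) {t | τ < ‖KO M L g t‖} *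
      ENNReal.ofReal (τ ^ (p - 1)) ≤
      ∫⁻ τ in Ioi (0 : ℝ), ENNReal.ofReal (4 * B) * (ν {s | τ < 2 * A * ‖g s‖} *
      ENNReal.ofReal (τ ^ (p - 2 - 1))) := by
    refine setLIntegral_mono' measurableSet_Ioi fun τ hτ => ?_
    have hτ0 : 0 < τ := hτ
    have hSm : MeasurableSet {s | τ < 2 * A * ‖g s‖} := measurableSet_lt measurable_const hf2
    calc (volume.restrict (Icc (1 : ℝ) 2)) {t | τ < ‖KO M L g t‖} * ENNReal.ofReal (τ ^ (p - 1))
        ≤ (ENNReal.ofReal (4 * B * τ ^ (-2 : ℝ)) *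
          ∫⁻ s in {s | τ < 2 * A * ‖g s‖}, ‖g s‖ₑ ^ (2 : ℝ)) * ENNReal.ofReal (τ ^ (p - 1)) :=
          mul_le_mul_left (weak M L A B hM hA hB hA0 hL g hg K hK τ hτ0) _
      _ = ENNReal.ofReal (4 * B) * (ν {s | τ < 2 * A * ‖g s‖} *
          ENNReal.ofReal (τ ^ (p - 2 - 1))) := by
          rw [hν, withDensity_apply _ hSm, ENNReal.ofReal_mul (by positivity)]
          have e2 : ENNReal.ofReal (τ ^ (p - 2 - 1)) =
              ENNReal.ofReal (τ ^ (-2 : ℝ)) * ENNReal.ofReal (τ ^ (p - 1)) := by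
            rw [← ENNReal.ofReal_mul (by positivity), ← Real.rpow_add hτ0]
            congr 2
            ring
          rw [e2]
          ring
  have h4 : ∫⁻ τ in Ioi (0 : ℝ), ENNReal.ofReal (4 * B) * (ν {s | τ < 2 * A * ‖g s‖} *
      ENNReal.ofReal (τ ^ (p - 2 - 1))) = ENNReal.ofReal (4 * B) *
      ∫⁻ τ in Ioi (0 : ℝ), ν {s | τ < 2 * A * ‖g s‖} * ENNReal.ofReal (τ ^ (p - 2 - 1)) := by
    rw [lintegral_const_mul' _ _ ENNReal.ofReal_ne_top]
  have h5 : ENNReal.ofReal (p - 2) *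
      ∫⁻ τ in Ioi (0 : ℝ), ν {s | τ < 2 * A * ‖g s‖} * ENNReal.ofReal (τ ^ (p - 2 - 1)) =
      ENNReal.ofReal ((2 * A) ^ (p - 2)) * ∫⁻ s, ‖g s‖ₑ ^ p := by
    rw [← h2, hν, lintegral_withDensity_eq_lintegral_mul₀ hgm.aemeasurable
      ((hf2.pow_const _).ennreal_ofReal).aemeasurable, ← lintegral_const_mul _ (hg.enorm.pow_const _)]
    refine lintegral_congr fun s => ?_
    show ‖g s‖ₑ ^ (2 : ℝ) * ENNReal.ofReal ((2 * A * ‖g s‖) ^ (p - 2)) = _
    rw [Real.mul_rpow (by positivity) (norm_nonneg _), ENNReal.ofReal_mul (by positivity),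
      ← ENNReal.ofReal_rpow_of_nonneg (norm_nonneg _) hp2.le, ofReal_norm]
    have e3 : ‖g s‖ₑ ^ p = ‖g s‖ₑ ^ (2 : ℝ) * ‖g s‖ₑ ^ (p - 2) := by
      rw [← ENNReal.rpow_add_of_nonneg _ _ (by norm_num) hp2.le]
      congr 1
      ring
    rw [e3]
    ring
  set J : ℝ≥0∞ := ∫⁻ τ in Ioi (0 : ℝ), ν {s | τ < 2 * A * ‖g s‖} *
    ENNReal.ofReal (τ ^ (p - 2 - 1)) with hJ
  calc ENNReal.ofReal p * ∫⁻ τ in Ioi (0 : ℝ), (volume.restrict (Icc (1 : ℝ) 2))
        {t | τ < ‖KO M L g t‖} * ENNReal.ofReal (τ ^ (p - 1))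
      ≤ ENNReal.ofReal p * (ENNReal.ofReal (4 * B) * J) := by
        rw [← h4]
        exact mul_le_mul_right h3 _
    _ = ENNReal.ofReal (4 * p / (p - 2) * B) * (ENNReal.ofReal (p - 2) * J) := by
        rw [← mul_assoc, ← mul_assoc, ← ENNReal.ofReal_mul hp0.le,
          ← ENNReal.ofReal_mul (by positivity)]
        congr 2
        field_simp
    _ = ENNReal.ofReal (4 * p / (p - 2) * (2 * A) ^ (p - 2) * B) * ∫⁻ s, ‖g s‖ₑ ^ p := by
        rw [h5, ← mul_assoc, ← ENNReal.ofReal_mul (by positivity)]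
        congr 2
        ring

end kernel

theorem ker : S_KA → S_KB → S_KM → S_KER := by
  rintro ⟨CA, hCA, hKA⟩ ⟨CB, hCB, hKB⟩ hKM p hp
  -- the reduction
  have red : ∀ L : ℝ, 1 ≤ L → ∀ h : ℝ → ℂ, Measurable h → ∀ K : ℝ, (∀ s, ‖h s‖ ≤ K) →
      ∀ M : ℝ → ℝ → ℂ, ∃ g : ℝ → ℂ, Measurable g ∧ (∀ s, ‖g s‖ * ww L s ≤ K) ∧
        (∀ t, ∫ s : ℝ, M t s * h s = KO M L g t) ∧
        ∀ s, ‖g s‖ₑ ^ p = ENNReal.ofReal ((1 + (s / L) ^ 2) ^ (-(p / 2))) * ‖h s‖ₑ ^ p := by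
    intro L hL h hh K hK M
    refine ⟨fun s => h s / uu L s, hh.div (uu_meas L), ?_, ?_, ?_⟩
    · intro s
      rw [norm_div, norm_uu, div_mul_cancel₀ _ (ww_pos L s).ne']
      exact hK s
    · intro t
      unfold KO
      refine integral_congr_ae (Filter.Eventually.of_forall fun s => ?_)
      simp only
      rw [mul_div_cancel₀ _ (uu_ne L s)]
    · intro s
      rw [← ofReal_norm, ← ofReal_norm, ENNReal.ofReal_rpow_of_nonneg (norm_nonneg _) (by linarith),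
        ENNReal.ofReal_rpow_of_nonneg (norm_nonneg _) (by linarith), norm_div, norm_uu,
        ← ENNReal.ofReal_mul (by positivity)]
      congr 1
      rw [Real.div_rpow (norm_nonneg _) (ww_pos L s).le, ww, Real.sqrt_eq_rpow,
        ← Real.rpow_mul (by positivity), Real.rpow_neg (by positivity)]
      rw [show 1 / 2 * p = p / 2 by ring, div_eq_mul_inv, mul_comm]
  rcases eq_or_lt_of_le hp with h2 | h2
  · subst h2
    refine ⟨CB, hCB, fun L hL N hN χ hχ σ hσ h hh ⟨K, hK⟩ => ?_⟩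
    obtain ⟨g, hg, hgK, hgi, hgp⟩ := red L hL h hh K hK (fun t s => MK (OS χ (σ * t * L)) s)
    have h1 := ker_two (fun t s => MK (OS χ (σ * t * L)) s) L (CA * N * Real.sqrt L)
      (CB * N ^ 2 / L) (hKM L hL N hN χ hχ σ hσ)
      (fun t ht => (hKA L hL N hN χ hχ σ hσ t ht).2)
      (fun g hg hgK hgR => hKB L hL N hN χ hχ σ hσ g hg hgK hgR) g hg K ?_
    · have e1 : ∫⁻ t in Icc (1 : ℝ) 2, ‖∫ s : ℝ, MK (OS χ (σ * t * L)) s * h s‖ₑ ^ (2 : ℝ) =
          ∫⁻ t in Icc (1 : ℝ) 2, ‖KO (fun t s => MK (OS χ (σ * t * L)) s) L g t‖ₑ ^ (2 : ℝ) :=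
        lintegral_congr fun t => by rw [← hgi t]
      rw [e1]
      refine h1.trans (le_of_eq ?_)
      rw [lintegral_congr hgp]
      congr 2
      rw [Real.rpow_two, show (2 : ℝ) / 2 - 2 = -1 by norm_num, Real.rpow_neg_one]
      ring
    · intro s
      refine le_trans ?_ (hgK s)
      have h1 : 1 ≤ ww L s := by
        unfold ww
        rw [Real.one_le_sqrt]
        nlinarith [sq_nonneg (s / L)]
      exact le_mul_of_one_le_right (norm_nonneg _) h1
  · have hp2 : 0 < p - 2 := by linarith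
    refine ⟨4 * p / (p - 2) * (2 * CA) ^ (p - 2) * CB, by positivity,
      fun L hL N hN χ hχ σ hσ h hh ⟨K, hK⟩ => ?_⟩
    have hL0 : 0 < L := by linarith
    obtain ⟨g, hg, hgK, hgi, hgp⟩ := red L hL h hh K hK (fun t s => MK (OS χ (σ * t * L)) s)
    have h1 := ker_gt (fun t s => MK (OS χ (σ * t * L)) s) L (CA * N * Real.sqrt L)
      (CB * N ^ 2 / L) (hKM L hL N hN χ hχ σ hσ)
      (fun t ht => (hKA L hL N hN χ hχ σ hσ t ht).2)
      (fun g hg hgK hgR => hKB L hL N hN χ hχ σ hσ g hg hgK hgR) (by positivity) (by positivity)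
      hL0 g hg K hgK p h2
    have e1 : ∫⁻ t in Icc (1 : ℝ) 2, ‖∫ s : ℝ, MK (OS χ (σ * t * L)) s * h s‖ₑ ^ p =
        ∫⁻ t in Icc (1 : ℝ) 2, ‖KO (fun t s => MK (OS χ (σ * t * L)) s) L g t‖ₑ ^ p :=
      lintegral_congr fun t => by rw [← hgi t]
    rw [e1]
    refine h1.trans (le_of_eq ?_)
    rw [lintegral_congr hgp]
    congr 2
    have e2 : (2 * (CA * N * Real.sqrt L)) ^ (p - 2) =
        (2 * CA) ^ (p - 2) * N ^ (p - 2) * L ^ ((p - 2) / 2) := by
      rw [show 2 * (CA * N * Real.sqrt L) = 2 * CA * N * Real.sqrt L by ring,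
        Real.mul_rpow (by positivity) (Real.sqrt_nonneg _), Real.mul_rpow (by positivity) hN.le,
        Real.sqrt_eq_rpow, ← Real.rpow_mul hL0.le]
      congr 2
      ring
    have e3 : N ^ p = N ^ (p - 2) * N ^ 2 := by
      rw [← Real.rpow_natCast N 2, ← Real.rpow_add hN]
      congr 1
      push_cast
      ring
    have e4 : L ^ (p / 2 - 2) = L ^ ((p - 2) / 2) / L := by
      rw [show p / 2 - 2 = (p - 2) / 2 - 1 by ring, Real.rpow_sub_one hL0.ne']
    rw [e2, e3, e4]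
    ring

end Pool.Agent.W216.WV
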