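import Pool.Agent.W645.WV.Stm

/-!
# WV-KM: joint measurability of the kernel
-/

set_option autoImplicit false

open MeasureTheory Set Complex
open scoped ENNReal

namespace Pool.Agent.W216.WV

open Pool.Agent.W645.WV

theorem km : S_KM := by
  intro L _ N _ χ hχ σ _
  have hc : Continuous χ := hχ.1.continuous
  have h1 : Continuous (fun z : (ℝ × ℝ) × ℝ => cexp (z.2 : ℂ) * OS χ (σ * z.1.1 * L) z.2 *
      cexp (2 * (Real.pi : ℂ) * I * ((z.1.2 * z.2 : ℝ) : ℂ))) := by
    unfold OS
    have e1 : Continuous (fun z : (ℝ × ℝ) × ℝ => ((σ * z.1.1 * L * Real.sqrt z.2 : ℝ) : ℂ)) := by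
      apply Complex.continuous_ofReal.comp
      fun_prop
    have e2 : Continuous (fun z : (ℝ × ℝ) × ℝ => ((z.1.2 * z.2 : ℝ) : ℂ)) := by
      apply Complex.continuous_ofReal.comp
      fun_prop
    have e3 : Continuous (fun z : (ℝ × ℝ) × ℝ => ((z.2 : ℝ) : ℂ)) :=
      Complex.continuous_ofReal.comp continuous_snd
    have e4 : Continuous (fun z : (ℝ × ℝ) × ℝ => χ z.2) := hc.comp continuous_snd
    exact ((Complex.continuous_exp.comp e3).mul (e4.mul (Complex.continuous_exp.comp
      (continuous_const.mul e1)))).mul (Complex.continuous_exp.comp (continuous_const.mul e2))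
  have h2 := StronglyMeasurable.integral_prod_right' (ν := (volume : Measure ℝ))
    h1.measurable.stronglyMeasurable
  exact h2.measurable

end Pool.Agent.W216.WV
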